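import Mathlib
import Pool.Agent.Y546.WQ.Stm2
import Pool.Agent.Y686.WQ.DOWN

set_option autoImplicit false

/-!
# Project WG: descent of ideal `p`-th powers from a field containing all conjugates
(adaptation of `Pool/Agent/Y686/WQ/DOWN.lean` by helper686)
-/

namespace Pool.Agent.Y258.WQ

open NumberField IsDedekindDomain
open Pool.Agent.Y546.WQ
open Pool.Agent.Y686.WQ (count_eq)

section fields

/-- the degree of a splitting field divides the factorial of the degree of the polynomial -/
theorem finrank_dvd {E N : Type} [Field E] [Field N] [Algebra E N] (g : Polynomial E)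
    [Polynomial.IsSplittingField E N g] (hsep : g.Separable) :
    Module.finrank E N ∣ g.natDegree.factorial := by
  have h1 : Module.finrank E N = Module.finrank E g.SplittingField :=
    (Polynomial.IsSplittingField.algEquiv N g).toLinearEquiv.finrank_eq
  rw [h1, ← Polynomial.Gal.card_of_separable hsep]
  have hs : Fact ((g.map (algebraMap E g.SplittingField)).Splits) :=
    ⟨Polynomial.SplittingField.splits g⟩
  have h2 := Subgroup.card_dvd_of_injective (Polynomial.Gal.galActionHom g g.SplittingField)
    (Polynomial.Gal.galActionHom_injective g g.SplittingField)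
  rw [Nat.card_perm] at h2
  have h3 : Nat.card (g.rootSet g.SplittingField) = g.natDegree := by
    rw [Nat.card_eq_fintype_card]
    exact Polynomial.card_rootSet_eq_natDegree hsep hs.out
  rwa [h3] at h2

/-- a field containing all conjugates -/
theorem exists_field (E : Type) [Field E] [NumberField E] (K : Type) [Field K] [NumberField K] :
    ∃ (N : Type) (_ : Field N) (_ : NumberField N) (_ : Algebra E N),
      IsGalois E N ∧ Nat.card (K →+* N) = Module.finrank ℚ K ∧
      Module.finrank E N ∣ (Module.finrank ℚ K).factorial := by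
  let pb := Field.powerBasisOfFiniteOfSeparable ℚ K
  have hint : IsIntegral ℚ pb.gen := Algebra.IsIntegral.isIntegral _
  have hirr : Irreducible (minpoly ℚ pb.gen) := minpoly.irreducible hint
  have hsep : (minpoly ℚ pb.gen).Separable := hirr.separable
  let gE : Polynomial E := (minpoly ℚ pb.gen).map (algebraMap ℚ E)
  have hsepE : gE.Separable := hsep.map
  have hdeg : gE.natDegree = Module.finrank ℚ K := by
    rw [Polynomial.natDegree_map, pb.natDegree_minpoly, pb.finrank]
  obtain ⟨N, iF, iA, hN⟩ : ∃ (N : Type) (_ : Field N) (_ : Algebra E N),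
      Polynomial.IsSplittingField E N gE :=
    ⟨gE.SplittingField, inferInstance, inferInstance, inferInstance⟩
  have hfin : FiniteDimensional E N := Polynomial.IsSplittingField.finiteDimensional N gE
  have hchar : CharZero N := charZero_of_injective_algebraMap (algebraMap E N).injective
  have hfd : FiniteDimensional ℚ N := FiniteDimensional.trans ℚ E N
  have hnf : NumberField N := NumberField.mk
  refine ⟨N, iF, hnf, iA, IsGalois.of_separable_splitting_field (p := gE) hsepE, ?_, ?_⟩
  · rw [Nat.card_congr (RingHom.equivRatAlgHom K N), pb.finrank]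
    refine AlgHom.natCard_of_powerBasis pb hsep ?_
    have h1 := Polynomial.IsSplittingField.splits N gE
    have h2 : gE.map (algebraMap E N) = (minpoly ℚ pb.gen).map (algebraMap ℚ N) := by
      rw [Polynomial.map_map]
      congr 1
      exact Subsingleton.elim _ _
    rwa [h2] at h1
  · have h1 := finrank_dvd (N := N) gE hsepE
    rwa [hdeg] at h1

end fields

section descent

variable {C : Type} [Field C] [NumberField C] {L : Type} [Field L] [NumberField L] [Algebra C L]

/-- a prime above a given one; the ramification index divides the degree -/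
theorem exists_above [IsGalois C L] (P : HeightOneSpectrum (𝓞 C)) :
    ∃ (w : HeightOneSpectrum (𝓞 L)) (e : ℕ), e ∣ Module.finrank C L ∧
      ∀ x : C, w.valuation L (algebraMap C L x) = P.valuation C x ^ e := by
  obtain ⟨Q, -, hQ, hQP⟩ := Ideal.exists_ideal_over_prime_of_isIntegral (S := 𝓞 L) P.asIdeal ⊥
    (by
      rw [← RingHom.ker_eq_comap_bot,
        (RingHom.injective_iff_ker_eq_bot _).1 (FaithfulSMul.algebraMap_injective (𝓞 C) (𝓞 L))]
      exact bot_le)
  have hQ0 : Q ≠ ⊥ := by
    intro h
    apply P.ne_bot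
    rw [← hQP, h]
    exact Ideal.comap_bot_of_injective _ (FaithfulSMul.algebraMap_injective (𝓞 C) (𝓞 L))
  let w : HeightOneSpectrum (𝓞 L) := ⟨Q, hQ, hQ0⟩
  have hover : w.asIdeal.LiesOver P.asIdeal := ⟨hQP.symm⟩
  have hmax : P.asIdeal.IsMaximal := P.isMaximal
  have hnz : NoZeroSMulDivisors (𝓞 C) (𝓞 L) := ⟨fun {r x} h => smul_eq_zero.1 h⟩
  have hval := fun x : C => HeightOneSpectrum.valuation_liesOver (K := C) L P w x
  refine ⟨w, P.asIdeal.ramificationIdx' w.asIdeal, ?_, fun x => (hval x).symm⟩
  rw [Ideal.ramificationIdx'_eq_ramificationIdx P.asIdeal w.asIdeal P.ne_bot,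
    ← Ideal.ramificationIdxIn_eq_ramificationIdx P.asIdeal w.asIdeal Gal(L/C),
    ← IsGaloisGroup.card_eq_finrank Gal(L/C) C L,
    ← Ideal.ncard_primesOver_mul_ramificationIdxIn_mul_inertiaDegIn P.asIdeal (𝓞 L) Gal(L/C)]
  exact Dvd.intro_left ((P.asIdeal.primesOver (𝓞 L)).ncard * P.asIdeal.inertiaDegIn (𝓞 L)) (by ring)

end descent

/-- **DOWNG** -/
theorem mainDOWNG : S_DOWNG := by
  intro p hp E _ _ c K _ _ hK
  obtain ⟨N, iF, iN, iA, hG, hcard, hdvd⟩ := exists_field E K
  refine ⟨N, iF, iN, algebraMap E N, hcard, ?_⟩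
  intro u v hu hv U V hU hV A B hA hB h P
  obtain ⟨w, e, he, hw⟩ := exists_above (L := N) P
  have hpe : ¬ p ∣ e := by
    intro h1
    have h2 := (Nat.Prime.dvd_factorial hp.out).1 ((h1.trans he).trans hdvd)
    omega
  have hU0 : U ≠ 0 := by
    rintro rfl
    apply hu
    have : algebraMap E N u = 0 := by rw [← hU]; simp
    simpa using this
  have hV0 : V ≠ 0 := by
    rintro rfl
    apply hv
    have : algebraMap E N v = 0 := by rw [← hV]; simp
    simpa using this
  obtain ⟨k, a, b, ha, hb, hab⟩ := count_eq w p hU0 hV0 hA hB h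
  rw [hU, hw] at ha
  rw [hV, hw] at hb
  have nu : P.valuation E u ≠ 0 := (Valuation.ne_zero_iff _).2 hu
  have nv : P.valuation E v ≠ 0 := (Valuation.ne_zero_iff _).2 hv
  obtain ⟨x, hx⟩ : ∃ x : ℤ, P.valuation E u = WithZero.exp x :=
    ⟨WithZero.log (P.valuation E u), (WithZero.exp_log nu).symm⟩
  obtain ⟨y, hy⟩ : ∃ y : ℤ, P.valuation E v = WithZero.exp y :=
    ⟨WithZero.log (P.valuation E v), (WithZero.exp_log nv).symm⟩
  rw [hx, ← WithZero.exp_nsmul, WithZero.exp_inj] at ha
  rw [hy, ← WithZero.exp_nsmul, WithZero.exp_inj] at hb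
  have h1 : (e : ℤ) * (y - x) = p * k := by
    have h2 : (e : ℤ) * x = -a := by simpa using ha
    have h3 : (e : ℤ) * y = -b := by simpa using hb
    rw [mul_sub, h2, h3, ← hab]
    ring
  have hpp : Prime (p : ℤ) := Nat.prime_iff_prime_int.1 hp.out
  have h2 : (p : ℤ) ∣ e * (y - x) := ⟨k, h1⟩
  have h3 : (p : ℤ) ∣ y - x := by
    rcases hpp.dvd_or_dvd h2 with h4 | h4
    · exact absurd (Int.natCast_dvd_natCast.1 h4) hpe
    · exact h4
  obtain ⟨m, hm⟩ := h3
  refine ⟨-m, ?_⟩
  rw [hx, hy, ← WithZero.exp_add]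
  congr 1
  linarith

end Pool.Agent.Y258.WQ
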